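import Mathlib

/-!
# Monotone selection in Boolean algebras generated by chains (MP_9a43b6, Q1)
-/

namespace Pool.Agent.Results.MP_9a43b6_co.ChainGenerated

/-- Nonempty sublattices. -/
def IsSub {T : Type*} [Lattice T] (S : Set T) : Prop :=
  S.Nonempty ∧ ∀ x ∈ S, ∀ y ∈ S, x ⊓ y ∈ S ∧ x ⊔ y ∈ S

/-- The relation `S ≤ S'` of nonempty sublattices. -/
def SubLe {T : Type*} [Lattice T] (S S' : Set T) : Prop :=
  ∀ x ∈ S, ∀ x' ∈ S', x ⊓ x' ∈ S ∧ x ⊔ x' ∈ S'

/-- The monotone selection property. The values of `φ` at sets which are not nonempty sublattices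
play no role. -/
def MonotoneSelection (T : Type*) [Lattice T] : Prop :=
  ∃ φ : Set T → T, (∀ S S', IsSub S → IsSub S' → SubLe S S' → φ S ≤ φ S') ∧
    ∀ S, IsSub S → φ S ∈ S

variable {T : Type*} [BooleanAlgebra T]

/-- The germ (limit along a filter base). -/
def G (𝓕 : Set T) (A : T) : Prop := ∃ F ∈ 𝓕, F ≤ A

lemma G_mono {𝓕 : Set T} {A B : T} (h : A ≤ B) (hA : G 𝓕 A) : G 𝓕 B := by
  obtain ⟨F, hF, hFA⟩ := hA
  exact ⟨F, hF, hFA.trans h⟩

/-- A filter base. -/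
def Base (𝓕 : Set T) : Prop := (∀ F ∈ 𝓕, ∀ F' ∈ 𝓕, ∃ F'' ∈ 𝓕, F'' ≤ F ⊓ F') ∧ ⊥ ∉ 𝓕

lemma G_inf {𝓕 : Set T} (h : Base 𝓕) {A B : T} (hA : G 𝓕 A) (hB : G 𝓕 B) : G 𝓕 (A ⊓ B) := by
  obtain ⟨F, hF, hFA⟩ := hA
  obtain ⟨F', hF', hFB⟩ := hB
  obtain ⟨F'', hF'', hh⟩ := h.1 F hF F' hF'
  exact ⟨F'', hF'', hh.trans (inf_le_inf hFA hFB)⟩

lemma not_G_bot {𝓕 : Set T} (h : Base 𝓕) : ¬ G 𝓕 ⊥ := by
  rintro ⟨F, hF, hFb⟩
  rw [le_bot_iff] at hFb
  exact h.2 (hFb ▸ hF)

lemma G_disj {𝓕 : Set T} (h : Base 𝓕) {A B : T} (hAB : A ⊓ B = ⊥) (hA : G 𝓕 A) :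
    ¬ G 𝓕 B := by
  intro hB
  have := G_inf h hA hB
  rw [hAB] at this
  exact not_G_bot h this

lemma decisive {Y : Set T} (hgen : BooleanSubalgebra.closure Y = ⊤) {𝓕 : Set T} (h : Base 𝓕)
    (hne : 𝓕.Nonempty) (hY : ∀ c ∈ Y, G 𝓕 c ∨ G 𝓕 cᶜ) (A : T) : G 𝓕 A ∨ G 𝓕 Aᶜ := by
  have hA : A ∈ BooleanSubalgebra.closure Y := by rw [hgen]; exact BooleanSubalgebra.mem_top
  induction hA using BooleanSubalgebra.closure_bot_sup_induction with
  | mem x hx => exact hY x hx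
  | bot =>
    right
    obtain ⟨F, hF⟩ := hne
    exact ⟨F, hF, by simp⟩
  | sup x hx y hy ihx ihy =>
    rcases ihx with ihx | ihx
    · exact Or.inl (G_mono le_sup_left ihx)
    · rcases ihy with ihy | ihy
      · exact Or.inl (G_mono le_sup_right ihy)
      · right
        rw [compl_sup]
        exact G_inf h ihx ihy
  | compl x hx ihx =>
    rw [compl_compl]
    exact ihx.symm

lemma G_sup {𝓕 : Set T} (h : Base 𝓕) (hdec : 𝓕 = ∅ ∨ ∀ A, G 𝓕 A ∨ G 𝓕 Aᶜ) (A B : T) :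
    G 𝓕 (A ⊔ B) ↔ G 𝓕 A ∨ G 𝓕 B := by
  constructor
  · intro hAB
    rcases hdec with h0 | hdec
    · obtain ⟨F, hF, -⟩ := hAB
      rw [h0] at hF
      exact absurd hF (Set.notMem_empty _)
    · by_contra hcon
      push Not at hcon
      have hA := (hdec A).resolve_left hcon.1
      have hB := (hdec B).resolve_left hcon.2
      have h1 := G_inf h hA hB
      rw [← compl_sup] at h1
      exact G_disj h inf_compl_eq_bot hAB h1
  · rintro (h | h)
    · exact G_mono le_sup_left h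
    · exact G_mono le_sup_right h

/-- The left germs. -/
def Lf (Y : Set T) (x : T) : Set T := {F | ∃ y ∈ Y, y < x ∧ F = x \ y}

/-- The right germs. -/
def Rt (Y : Set T) (x : T) : Set T := {F | ∃ y ∈ Y, x < y ∧ F = y \ x}

/-- The endpoints of an element. -/
def σ (Y : Set T) (A : T) : Set T := {x | x ∈ Y ∧ x ≠ ⊥ ∧ ¬ (G (Lf Y x) A ↔ G (Rt Y x) A)}

/-- Chains with `⊥` and `⊤` which generate the Boolean algebra. -/
structure Gen (Y : Set T) : Prop where
  chain : ∀ x ∈ Y, ∀ y ∈ Y, x ≤ y ∨ y < x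
  bot : ⊥ ∈ Y
  top : ⊤ ∈ Y
  gen : BooleanSubalgebra.closure Y = ⊤

variable {Y : Set T}

lemma base_Lf (hY : Gen Y) (x : T) : Base (Lf Y x) := by
  constructor
  · rintro _ ⟨y, hy, hyx, rfl⟩ _ ⟨y', hy', hyx', rfl⟩
    rcases hY.chain y hy y' hy' with h | h
    · exact ⟨x \ y', ⟨y', hy', hyx', rfl⟩, le_inf (sdiff_le_sdiff_left h) le_rfl⟩
    · exact ⟨x \ y, ⟨y, hy, hyx, rfl⟩, le_inf le_rfl (sdiff_le_sdiff_left h.le)⟩
  · rintro ⟨y, hy, hyx, h⟩
    have := sdiff_eq_bot_iff.1 h.symm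
    exact absurd hyx (not_lt_of_ge this)

lemma base_Rt (hY : Gen Y) (x : T) : Base (Rt Y x) := by
  constructor
  · rintro _ ⟨y, hy, hyx, rfl⟩ _ ⟨y', hy', hyx', rfl⟩
    rcases hY.chain y hy y' hy' with h | h
    · exact ⟨y \ x, ⟨y, hy, hyx, rfl⟩, le_inf le_rfl (sdiff_le_sdiff_right h)⟩
    · exact ⟨y' \ x, ⟨y', hy', hyx', rfl⟩, le_inf (sdiff_le_sdiff_right h.le) le_rfl⟩
  · rintro ⟨y, hy, hyx, h⟩
    have := sdiff_eq_bot_iff.1 h.symm
    exact absurd hyx (not_lt_of_ge this)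

lemma dec_Lf (hY : Gen Y) {x : T} (hx : x ∈ Y) (hx0 : x ≠ ⊥) (A : T) :
    G (Lf Y x) A ∨ G (Lf Y x) Aᶜ := by
  refine decisive hY.gen (base_Lf hY x) ⟨x \ ⊥, ⊥, hY.bot, bot_lt_iff_ne_bot.2 hx0, rfl⟩ ?_ A
  intro c hc
  rcases hY.chain x hx c hc with h | h
  · left
    exact ⟨x \ ⊥, ⟨⊥, hY.bot, bot_lt_iff_ne_bot.2 hx0, rfl⟩, by simpa using h⟩
  · right
    refine ⟨x \ c, ⟨c, hc, h, rfl⟩, ?_⟩
    rw [sdiff_eq]
    exact inf_le_right

lemma dec_Rt (hY : Gen Y) {x : T} (hx : x ∈ Y) :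
    Rt Y x = ∅ ∨ ∀ A, G (Rt Y x) A ∨ G (Rt Y x) Aᶜ := by
  by_cases hx1 : x = ⊤
  · left
    rw [Set.eq_empty_iff_forall_notMem]
    rintro F ⟨y, -, hy, -⟩
    rw [hx1] at hy
    exact absurd hy (not_lt_of_ge le_top)
  · right
    intro A
    refine decisive hY.gen (base_Rt hY x) ⟨⊤ \ x, ⊤, hY.top, lt_top_iff_ne_top.2 hx1, rfl⟩ ?_ A
    intro c hc
    rcases hY.chain c hc x hx with h | h
    · right
      refine ⟨⊤ \ x, ⟨⊤, hY.top, lt_top_iff_ne_top.2 hx1, rfl⟩, ?_⟩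
      rw [top_sdiff]
      exact compl_le_compl h
    · left
      exact ⟨c \ x, ⟨c, hc, h, rfl⟩, sdiff_le⟩

lemma sup_Lf (hY : Gen Y) {x : T} (hx : x ∈ Y) (hx0 : x ≠ ⊥) (A B : T) :
    G (Lf Y x) (A ⊔ B) ↔ G (Lf Y x) A ∨ G (Lf Y x) B :=
  G_sup (base_Lf hY x) (Or.inr (dec_Lf hY hx hx0)) A B

lemma sup_Rt (hY : Gen Y) {x : T} (hx : x ∈ Y) (A B : T) :
    G (Rt Y x) (A ⊔ B) ↔ G (Rt Y x) A ∨ G (Rt Y x) B :=
  G_sup (base_Rt hY x) (dec_Rt hY hx) A B

lemma chain_sup (hY : Gen Y) {x y : T} (hx : x ∈ Y) (hy : y ∈ Y) {z : T} (h : z ≤ x ⊔ y) :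
    z ≤ x ∨ z ≤ y := by
  rcases hY.chain x hx y hy with h1 | h1
  · right; rwa [sup_eq_right.2 h1] at h
  · left; rwa [sup_eq_left.2 h1.le] at h

lemma chain_inf (hY : Gen Y) {x y : T} (hx : x ∈ Y) (hy : y ∈ Y) {z : T} (h : x ⊓ y ≤ z) :
    x ≤ z ∨ y ≤ z := by
  rcases hY.chain x hx y hy with h1 | h1
  · left; rwa [inf_eq_left.2 h1] at h
  · right; rwa [inf_eq_right.2 h1.le] at h

lemma Lf_sdiff (hY : Gen Y) {x a b : T} (hx : x ∈ Y) (ha : a ∈ Y) (hb : b ∈ Y) :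
    G (Lf Y x) (a \ b) ↔ x ≤ a ∧ b < x := by
  constructor
  · rintro ⟨_, ⟨y, hy, hyx, rfl⟩, h⟩
    have h1 : x \ y ≤ a := h.trans sdiff_le
    rw [sdiff_le_iff] at h1
    have h2 : x ⊓ b ≤ y := by
      have h3 : x \ y ⊓ b ≤ ⊥ := by
        calc x \ y ⊓ b ≤ (a \ b) ⊓ b := inf_le_inf_right b h
          _ = ⊥ := by simp
      have h4 : (x ⊓ b) \ y ≤ ⊥ := by
        rw [← sdiff_inf_right_comm]
        exact h3
      rwa [le_bot_iff, sdiff_eq_bot_iff] at h4
    refine ⟨?_, ?_⟩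
    · rcases chain_sup hY hy ha h1 with h3 | h3
      · exact absurd hyx (not_lt_of_ge h3)
      · exact h3
    · rcases chain_inf hY hx hb h2 with h3 | h3
      · exact absurd hyx (not_lt_of_ge h3)
      · exact lt_of_le_of_lt h3 hyx
  · rintro ⟨h1, h2⟩
    exact ⟨x \ b, ⟨b, hb, h2, rfl⟩, sdiff_le_sdiff_right h1⟩

lemma Rt_sdiff (hY : Gen Y) {x a b : T} (hx : x ∈ Y) (ha : a ∈ Y) (hb : b ∈ Y) :
    G (Rt Y x) (a \ b) ↔ x < a ∧ b ≤ x := by
  constructor
  · rintro ⟨_, ⟨y, hy, hyx, rfl⟩, h⟩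
    have h1 : y \ x ≤ a := h.trans sdiff_le
    rw [sdiff_le_iff] at h1
    have h2 : y ⊓ b ≤ x := by
      have h3 : y \ x ⊓ b ≤ ⊥ := by
        calc y \ x ⊓ b ≤ (a \ b) ⊓ b := inf_le_inf_right b h
          _ = ⊥ := by simp
      have h4 : (y ⊓ b) \ x ≤ ⊥ := by
        rw [← sdiff_inf_right_comm]
        exact h3
      rwa [le_bot_iff, sdiff_eq_bot_iff] at h4
    refine ⟨?_, ?_⟩
    · rcases chain_sup hY hx ha h1 with h3 | h3
      · exact absurd hyx (not_lt_of_ge h3)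
      · exact lt_of_lt_of_le hyx h3
    · rcases chain_inf hY hy hb h2 with h3 | h3
      · exact absurd hyx (not_lt_of_ge h3)
      · exact h3
  · rintro ⟨h1, h2⟩
    exact ⟨a \ x, ⟨a, ha, h1, rfl⟩, sdiff_le_sdiff_left h2⟩

lemma isSublattice_Y (hY : Gen Y) : IsSublattice Y := by
  constructor
  · intro a ha b hb
    rcases hY.chain a ha b hb with h | h
    · rwa [sup_eq_right.2 h]
    · rwa [sup_eq_left.2 h.le]
  · intro a ha b hb
    rcases hY.chain a ha b hb with h | h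
    · rwa [inf_eq_left.2 h]
    · rwa [inf_eq_right.2 h.le]

lemma σ_finite (hY : Gen Y) (A : T) : (σ Y A).Finite := by
  have hA : A ∈ BooleanSubalgebra.closure Y := by rw [hY.gen]; exact BooleanSubalgebra.mem_top
  refine BooleanSubalgebra.closure_sdiff_sup_induction (p := fun A _ => (σ Y A).Finite)
    (isSublattice_Y hY) hY.bot hY.top ?_ ?_ A hA
  · intro a ha b hb
    refine (Set.toFinite {a, b}).subset ?_
    rintro x ⟨hx, hx0, h⟩
    rw [Lf_sdiff hY hx ha hb, Rt_sdiff hY hx ha hb] at h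
    rw [Set.mem_insert_iff, Set.mem_singleton_iff]
    by_contra hcon
    push Not at hcon
    apply h
    constructor
    · rintro ⟨h1, h2⟩
      exact ⟨lt_of_le_of_ne h1 hcon.1, h2.le⟩
    · rintro ⟨h1, h2⟩
      exact ⟨h1.le, lt_of_le_of_ne h2 (Ne.symm hcon.2)⟩
  · intro A _ B _ hA hB
    refine (hA.union hB).subset ?_
    rintro x ⟨hx, hx0, h⟩
    rw [sup_Lf hY hx hx0, sup_Rt hY hx] at h
    rw [Set.mem_union]
    by_contra hcon
    rw [not_or] at hcon
    have h1 : G (Lf Y x) A ↔ G (Rt Y x) A := by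
      by_contra h1
      exact hcon.1 ⟨hx, hx0, h1⟩
    have h2 : G (Lf Y x) B ↔ G (Rt Y x) B := by
      by_contra h2
      exact hcon.2 ⟨hx, hx0, h2⟩
    rw [h1, h2] at h
    exact h Iff.rfl

lemma exists_max (hY : Gen Y) (A : T) : A = ⊥ ∨ ∃ x ∈ Y, x ≠ ⊥ ∧ G (Lf Y x) A ∧
    ∀ x' ∈ Y, x' ≠ ⊥ → G (Lf Y x') A → x' ≤ x := by
  have hA : A ∈ BooleanSubalgebra.closure Y := by rw [hY.gen]; exact BooleanSubalgebra.mem_top
  refine BooleanSubalgebra.closure_sdiff_sup_induction (p := fun A _ => A = ⊥ ∨ ∃ x ∈ Y, x ≠ ⊥ ∧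
    G (Lf Y x) A ∧ ∀ x' ∈ Y, x' ≠ ⊥ → G (Lf Y x') A → x' ≤ x)
    (isSublattice_Y hY) hY.bot hY.top ?_ ?_ A hA
  · intro a ha b hb
    rcases hY.chain a ha b hb with h | h
    · left
      rwa [sdiff_eq_bot_iff]
    · right
      refine ⟨a, ha, (bot_le.trans_lt h).ne', ?_, ?_⟩
      · rw [Lf_sdiff hY ha ha hb]
        exact ⟨le_rfl, h⟩
      · intro x' hx' _ hG
        rw [Lf_sdiff hY hx' ha hb] at hG
        exact hG.1
  · rintro A _ B _ (rfl | ⟨x, hx, hx0, hxA, hmx⟩) (rfl | ⟨y, hy, hy0, hyB, hmy⟩)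
    · left; simp
    · right; rw [bot_sup_eq]; exact ⟨y, hy, hy0, hyB, hmy⟩
    · right; rw [sup_bot_eq]; exact ⟨x, hx, hx0, hxA, hmx⟩
    · right
      rcases hY.chain x hx y hy with h | h
      · refine ⟨y, hy, hy0, (sup_Lf hY hy hy0 A B).2 (Or.inr hyB), ?_⟩
        intro x' hx' hx0' hG
        rw [sup_Lf hY hx' hx0'] at hG
        rcases hG with hG | hG
        · exact (hmx x' hx' hx0' hG).trans h
        · exact hmy x' hx' hx0' hG
      · refine ⟨x, hx, hx0, (sup_Lf hY hx hx0 A B).2 (Or.inl hxA), ?_⟩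
        intro x' hx' hx0' hG
        rw [sup_Lf hY hx' hx0'] at hG
        rcases hG with hG | hG
        · exact hmx x' hx' hx0' hG
        · exact (hmy x' hx' hx0' hG).trans h.le

lemma σ_nonempty (hY : Gen Y) {D : T} (hD : D ≠ ⊥) : (σ Y D).Nonempty := by
  rcases exists_max hY D with h | ⟨x, hx, hx0, hxD, hm⟩
  · exact absurd h hD
  · refine ⟨x, hx, hx0, ?_⟩
    intro hiff
    obtain ⟨_, ⟨y, hy, hxy, rfl⟩, h⟩ := hiff.1 hxD
    have := hm y hy (bot_le.trans_lt hxy).ne' ⟨y \ x, ⟨x, hx, hxy, rfl⟩, h⟩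
    exact absurd hxy (not_lt_of_ge this)

lemma mem_σ_sup (hY : Gen Y) {M D : T} (h : M ⊓ D = ⊥) (x : T) :
    x ∈ σ Y (M ⊔ D) ↔ ¬ (x ∈ σ Y M ↔ x ∈ σ Y D) := by
  by_cases hx : x ∈ Y
  · by_cases hx0 : x = ⊥
    · simp [σ, hx0]
    · have h1 := sup_Lf hY hx hx0 M D
      have h2 := sup_Rt hY hx M D
      have h3 : G (Lf Y x) M → ¬ G (Lf Y x) D := G_disj (base_Lf hY x) h
      have h4 : G (Rt Y x) M → ¬ G (Rt Y x) D := G_disj (base_Rt hY x) h
      have h5 : ∀ A : T, x ∈ σ Y A ↔ ¬ (G (Lf Y x) A ↔ G (Rt Y x) A) := fun A =>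
        ⟨fun h => h.2.2, fun h => ⟨hx, hx0, h⟩⟩
      rw [h5, h5, h5, h1, h2]
      generalize G (Lf Y x) M = a at *
      generalize G (Lf Y x) D = b at *
      generalize G (Rt Y x) M = c at *
      generalize G (Rt Y x) D = d at *
      clear h1 h2 h5
      by_cases ha : a <;> by_cases hb : b <;> by_cases hc : c <;> by_cases hd : d <;>
        simp_all
  · simp [σ, hx]

lemma key (hY : Gen Y) {M D N : T} (hMN : M ≤ N) (hND : N ⊓ D = ⊥) {x : T} (hM : x ∈ σ Y M)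
    (hD : x ∈ σ Y D) : x ∈ σ Y N := by
  obtain ⟨hx, hx0, h1⟩ := hM
  obtain ⟨-, -, h2⟩ := hD
  refine ⟨hx, hx0, ?_⟩
  have h3 : G (Lf Y x) M → G (Lf Y x) N := G_mono hMN
  have h4 : G (Rt Y x) M → G (Rt Y x) N := G_mono hMN
  have h5 : G (Lf Y x) N → ¬ G (Lf Y x) D := G_disj (base_Lf hY x) hND
  have h6 : G (Rt Y x) N → ¬ G (Rt Y x) D := G_disj (base_Rt hY x) hND
  generalize G (Lf Y x) M = a at *
  generalize G (Lf Y x) D = b at *
  generalize G (Lf Y x) N = e at *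
  generalize G (Rt Y x) M = c at *
  generalize G (Rt Y x) D = d at *
  generalize G (Rt Y x) N = g at *
  by_cases ha : a <;> by_cases hb : b <;> by_cases hc : c <;> by_cases hd : d <;>
    simp_all

open Classical in
/-- The indicator of the set of endpoints. -/
noncomputable def f (hY : Gen Y) (A : T) : T →₀ ℕ :=
  Finsupp.onFinset (σ_finite hY A).toFinset (fun x => if x ∈ σ Y A then 1 else 0)
    (fun x hx => by
      rw [Set.Finite.mem_toFinset]
      by_contra h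
      exact hx (if_neg h))

open Classical in
lemma f_apply (hY : Gen Y) (A x : T) : f hY A x = if x ∈ σ Y A then 1 else 0 := rfl

/-- The order of the elements: compare the largest endpoint (with respect to a well-order) in which
they differ. -/
def r (hY : Gen Y) (A B : T) : Prop :=
  Finsupp.Lex (fun j i : T => WellOrderingRel i j) (fun m n : ℕ => m < n) (f hY A) (f hY B)

lemma wf_r (hY : Gen Y) : WellFounded (r hY) := by
  have h : WellFounded (Finsupp.Lex (fun j i : T => WellOrderingRel i j)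
      (fun m n : ℕ => m < n)) := by
    have : Std.Trichotomous (fun j i : T => WellOrderingRel i j) := by
      constructor
      intro a b h1 h2
      rcases trichotomous_of (WellOrderingRel (α := T)) a b with h | h | h
      · exact absurd h h2
      · exact h
      · exact absurd h h1
    exact Finsupp.Lex.wellFounded' (fun n => Nat.not_lt_zero n) wellFounded_lt
      WellOrderingRel.isWellOrder.wf
  exact InvImage.wf (f hY) h

/-- The greatest endpoint of a nonzero element with respect to the well-order. -/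
lemma exists_greatest (hY : Gen Y) {D : T} (hD : D ≠ ⊥) : ∃ x ∈ σ Y D,
    ∀ j, WellOrderingRel x j → j ∉ σ Y D := by
  have hfin := σ_finite hY D
  have hne := σ_nonempty hY hD
  have hgen : ∀ s : Finset T, s.Nonempty → ∃ x ∈ s, ∀ j, WellOrderingRel x j → j ∉ s := by
    intro s hs
    induction hs using Finset.Nonempty.cons_induction with
    | singleton a =>
      refine ⟨a, by simp, ?_⟩
      intro j hj hj'
      rw [Finset.mem_singleton] at hj'
      rw [hj'] at hj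
      exact irrefl_of WellOrderingRel a hj
    | cons a s ha hs ih =>
      obtain ⟨x, hx, hmax⟩ := ih
      by_cases hxa : WellOrderingRel x a
      · refine ⟨a, Finset.mem_cons_self a s, ?_⟩
        intro j hj hj'
        rw [Finset.mem_cons] at hj'
        rcases hj' with rfl | hj'
        · exact irrefl_of WellOrderingRel j hj
        · exact hmax j (trans_of WellOrderingRel hxa hj) hj'
      · refine ⟨x, Finset.mem_cons_of_mem hx, ?_⟩
        intro j hj hj'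
        rw [Finset.mem_cons] at hj'
        rcases hj' with rfl | hj'
        · exact hxa hj
        · exact hmax j hj hj'
  obtain ⟨x, hx, hmax⟩ := hgen hfin.toFinset (by rwa [Set.Finite.toFinset_nonempty])
  refine ⟨x, by simpa using hx, ?_⟩
  intro j hj hj'
  exact hmax j hj (by simpa using hj')

theorem dichotomy (hY : Gen Y) {D : T} (hD : D ≠ ⊥) {M N : T} (hMD : M ⊓ D = ⊥) (hMN : M ≤ N)
    (hND : N ⊓ D = ⊥) : r hY M (M ⊔ D) ∨ r hY (N ⊔ D) N := by
  obtain ⟨x, hx, hmax⟩ := exists_greatest hY hD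
  by_cases hxM : x ∈ σ Y M
  · right
    have hxN : x ∈ σ Y N := key hY hMN hND hxM hx
    refine ⟨x, ?_, ?_⟩
    · intro j hj
      have h1 := hmax j hj
      have h2 := mem_σ_sup hY hND j
      have h3 : j ∈ σ Y (N ⊔ D) ↔ j ∈ σ Y N := by rw [h2]; tauto
      rw [f_apply, f_apply]
      by_cases h4 : j ∈ σ Y N
      · rw [if_pos h4, if_pos (h3.2 h4)]
      · rw [if_neg h4, if_neg (fun h => h4 (h3.1 h))]
    · have h2 : x ∉ σ Y (N ⊔ D) := by rw [mem_σ_sup hY hND x]; tauto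
      simp [f_apply, h2, hxN]
  · left
    refine ⟨x, ?_, ?_⟩
    · intro j hj
      have h1 := hmax j hj
      have h2 := mem_σ_sup hY hMD j
      have h3 : j ∈ σ Y (M ⊔ D) ↔ j ∈ σ Y M := by rw [h2]; tauto
      rw [f_apply, f_apply]
      by_cases h4 : j ∈ σ Y M
      · rw [if_pos h4, if_pos (h3.2 h4)]
      · rw [if_neg h4, if_neg (fun h => h4 (h3.1 h))]
    · have h2 : x ∈ σ Y (M ⊔ D) := by rw [mem_σ_sup hY hMD x]; tauto
      simp [f_apply, h2, hxM]

theorem selection (hY : Gen Y) : MonotoneSelection T := by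
  classical
  refine ⟨fun S => if h : S.Nonempty then (wf_r hY).min S h else ⊥, ?_, ?_⟩
  · intro S S' hS hS' hSS
    simp only [dif_pos hS.1, dif_pos hS'.1]
    set x := (wf_r hY).min S hS.1 with hx
    set x' := (wf_r hY).min S' hS'.1 with hx'
    have hxS : x ∈ S := (wf_r hY).min_mem S hS.1
    have hxS' : x' ∈ S' := (wf_r hY).min_mem S' hS'.1
    by_contra hcon
    have hD : x \ x' ≠ ⊥ := by rwa [Ne, sdiff_eq_bot_iff]
    have hMD : (x ⊓ x') ⊓ (x \ x') = ⊥ := by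
      rw [sdiff_eq, inf_inf_inf_comm]
      simp
    have hND : x' ⊓ (x \ x') = ⊥ := by simp
    have h1 : (x ⊓ x') ⊔ (x \ x') = x := sup_inf_sdiff x x'
    have h2 : x' ⊔ (x \ x') = x ⊔ x' := by rw [sup_sdiff_self_right, sup_comm]
    have hdi := dichotomy hY hD hMD inf_le_right hND
    rw [h1, h2] at hdi
    obtain ⟨h3, h4⟩ := hSS x hxS x' hxS'
    rcases hdi with hdi | hdi
    · exact (wf_r hY).not_lt_min S h3 hdi
    · exact (wf_r hY).not_lt_min S' h4 hdi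
  · intro S hS
    simp only [dif_pos hS.1]
    exact (wf_r hY).min_mem S hS.1

/-- **MP_9a43b6, Q1.** Every Boolean algebra which is generated by a chain has the monotone
selection property. -/
theorem result (T : Type*) [BooleanAlgebra T] (C : Set T) (hC : IsChain (· ≤ ·) C)
    (hgen : BooleanSubalgebra.closure C = ⊤) : MonotoneSelection T := by
  have hY : Gen (insert ⊥ (insert ⊤ C) : Set T) := by
    refine ⟨?_, by simp, by simp, ?_⟩
    · have h1 : IsChain (· ≤ ·) (insert ⊥ (insert ⊤ C) : Set T) := by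
        refine IsChain.insert (IsChain.insert hC ?_) ?_
        · intro b _ _
          exact Or.inr le_top
        · intro b _ _
          exact Or.inl bot_le
      intro x hx y hy
      rcases h1.total hx hy with h | h
      · exact Or.inl h
      · rcases eq_or_lt_of_le h with h | h
        · exact Or.inl h.ge
        · exact Or.inr h
    · rw [eq_top_iff, ← hgen]
      exact BooleanSubalgebra.closure_mono (fun x hx => by simp [hx])
  exact selection hY

end Pool.Agent.Results.MP_9a43b6_co.ChainGenerated
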